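import Pool.Agent.Q286.IX.Stm

set_option autoImplicit false
set_option linter.unusedVariables false

/-! # Project IX, job IDX: the index theorem -/

open Filter Topology Finset MeasureTheory
open scoped ComplexConjugate

namespace Pool.Agent.Q211.IX

open Pool.Agent.Q286.EW Pool.Agent.Q286.IX

/-- the zeros are isolated -/
lemma isol [L : Y23.G.LFun] (w0 : ℂ) :
    ∃ δ : ℝ, 0 < δ ∧ ∀ w : ℂ, L.X (1 / 2 + w) = 0 → w ≠ w0 → δ < ‖w - w0‖ := by
  classical
  have hfin := Y23.G.win_finite (L := L) (w0.im)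
  set S := hfin.toFinset.filter (fun s => s ≠ 1 / 2 + w0) with hS
  have hmem : ∀ w : ℂ, L.X (1 / 2 + w) = 0 → w ≠ w0 → ‖w - w0‖ ≤ 1 → (1 / 2 + w) ∈ S := by
    intro w hw hne hle
    rw [hS, mem_filter, Set.Finite.mem_toFinset]
    refine ⟨⟨hw, ?_⟩, fun h => hne (add_left_cancel h)⟩
    have h1 := Complex.abs_im_le_norm (w - w0)
    rw [Complex.sub_im] at h1
    have h2 : (1 / 2 + w : ℂ).im = w.im := by simp
    rw [h2]
    exact h1.trans hle
  rcases S.eq_empty_or_nonempty with h | h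
  · refine ⟨1 / 2, by norm_num, fun w hw hne => ?_⟩
    by_contra hcon
    push Not at hcon
    have h1 := hmem w hw hne (by linarith)
    rw [h] at h1
    simp at h1
  · obtain ⟨s0, hs0, hmin⟩ := S.exists_min_image (fun s => ‖s - (1 / 2 + w0)‖) h
    have hpos : 0 < ‖s0 - (1 / 2 + w0)‖ := by
      rw [norm_pos_iff, sub_ne_zero]
      exact (mem_filter.1 hs0).2
    refine ⟨min (1 / 2) (‖s0 - (1 / 2 + w0)‖ / 2), lt_min (by norm_num) (by positivity), fun w hw hne => ?_⟩
    by_contra hcon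
    push Not at hcon
    have h1 := hcon.trans (min_le_left _ _)
    have h2 := hcon.trans (min_le_right _ _)
    have h3 := hmin _ (hmem w hw hne (by linarith))
    have h4 : (1 / 2 + w) - (1 / 2 + w0) = w - w0 := by ring
    simp only [h4] at h3
    linarith

/-- the bad points are isolated -/
lemma bad_of [L : Y23.G.LFun] (ω : ℂ → ℤ) (p : ℂ)
    (hp : L.X (1 / 2 + p) = 0 ∧ (ω (1 / 2 + p) < 0 ∨ (0 < ω (1 / 2 + p) ∧ p.re ≠ 0))) :
    ∃ δ0 : ℝ, 0 < δ0 ∧ ∀ δ : ℝ, δ ≤ δ0 → Bad (L := L) ω δ p := by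
  obtain ⟨δ1, hδ1, h1⟩ := isol (L := L) p
  obtain ⟨hX, h | ⟨h, hre⟩⟩ := hp
  · refine ⟨δ1, hδ1, fun δ hδ => ⟨hX, Or.inl ⟨h, fun w hw hpos => ?_⟩⟩⟩
    refine lt_of_le_of_lt hδ (h1 w hw ?_)
    rintro rfl
    omega
  · have h2 : 0 < |p.re| := abs_pos.2 hre
    refine ⟨min δ1 (|p.re| / 2), lt_min hδ1 (by positivity), fun δ hδ => ⟨hX, Or.inr ⟨h, ?_, fun w hw hneg => ?_⟩⟩⟩
    · have := hδ.trans (min_le_right _ _)
      linarith
    · refine lt_of_le_of_lt (hδ.trans (min_le_left _ _)) (h1 w hw ?_)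
      rintro rfl
      omega

/-- a positive lower bound of finitely many positive numbers -/
lemma exists_low {ι : Type} [Finite ι] (d : ι → ℝ) (hd : ∀ i, 0 < d i) : ∃ δ : ℝ, 0 < δ ∧ ∀ i, δ ≤ d i := by
  have h : ∀ᶠ δ : ℝ in 𝓝[>] 0, ∀ i, δ ≤ d i :=
    eventually_all.2 fun i => (eventually_le_nhds (hd i)).filter_mono nhdsWithin_le_nhds
  obtain ⟨δ, h1, h2⟩ := (h.and self_mem_nhdsWithin).exists
  exact ⟨δ, h2, h1⟩

/-- the transform at a point as a linear form -/
lemma ext_TT (a : ℝ) (z : ℂ) : ∃ l : (ℝ → ℂ) →ₗ[ℂ] ℂ, ∀ f : ℝ → ℂ, Y23.Fa a f → l f = Y23.TT f z := by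
  let p : Submodule ℂ (ℝ → ℂ) :=
    { carrier := {f | Y23.Fa a f}
      zero_mem' := ⟨MemLp.zero, fun _ _ => rfl⟩
      add_mem' := fun {f g} hf hg => Y23.Fa.add hf hg
      smul_mem' := fun c f hf => Y23.Fa.smul hf c }
  let g : p →ₗ[ℂ] ℂ :=
    { toFun := fun f => Y23.TT f.1 z
      map_add' := fun f g => Y23.TT_add f.2 g.2 z
      map_smul' := fun c f => Y23.TT_smul f.1 c z }
  obtain ⟨l, hl⟩ := LinearMap.exists_extend g
  refine ⟨l, fun f hf => ?_⟩
  have h1 := LinearMap.congr_fun hl ⟨f, hf⟩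
  exact h1

/-- a set without `k + 1` different elements is covered by `k` elements -/
lemma cover {α : Type} [Inhabited α] (T : Set α) (k : ℕ)
    (h : ∀ p : Fin (k + 1) → α, (∀ j, p j ∈ T) → ∃ i j, i ≠ j ∧ p i = p j) : ∃ q : Fin k → α, T ⊆ Set.range q := by
  classical
  have hno : ∀ t : Finset α, ↑t ⊆ T → t.card ≠ k + 1 := by
    intro t ht hc
    obtain ⟨i, j, hij, he⟩ := h (fun j => ((t.equivFinOfCardEq hc).symm j).1)
      (fun j => ht ((t.equivFinOfCardEq hc).symm j).2)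
    exact hij ((t.equivFinOfCardEq hc).symm.injective (Subtype.ext he))
  have hfin : T.Finite := by
    by_contra hinf
    obtain ⟨t, ht, hc⟩ := Set.Infinite.exists_subset_card_eq hinf (k + 1)
    exact hno t ht hc
  have hcard : hfin.toFinset.card ≤ k := by
    by_contra hcon
    push Not at hcon
    obtain ⟨t, ht, hc⟩ := Finset.exists_subset_card_eq (s := hfin.toFinset) (n := k + 1) hcon
    exact hno t (fun x hx => hfin.mem_toFinset.1 (ht hx)) hc
  obtain ⟨e⟩ : Nonempty (hfin.toFinset ↪ Fin k) := Function.Embedding.nonempty_of_card_le (by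
    rw [Fintype.card_coe, Fintype.card_fin]
    exact hcard)
  refine ⟨fun i => if h : ∃ x : hfin.toFinset, e x = i then (h.choose : α) else default, fun x hx => ?_⟩
  have hx' : x ∈ hfin.toFinset := hfin.mem_toFinset.2 hx
  have hex : ∃ y : hfin.toFinset, e y = e ⟨x, hx'⟩ := ⟨_, rfl⟩
  refine ⟨e ⟨x, hx'⟩, ?_⟩
  simp only
  rw [dif_pos hex]
  have h1 := e.injective hex.choose_spec
  rw [h1]

/-- IDX -/
theorem idx (hE : S_EffS) : S_Idx := by
  intro L
  have hm : 0 < L.m := L.raw.hm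
  have hm' : (0 : ℝ) < L.m := by exact_mod_cast hm
  set c : ℝ := Real.exp (Y23.G.kp (L := L) - 1) / 2 with hc
  have hc0 : 0 < c := by positivity
  have hc1 : c < Real.exp (Y23.G.kp (L := L) - 1) := by
    rw [hc]
    linarith [Real.exp_pos (Y23.G.kp (L := L) - 1)]
  obtain ⟨C, κ, A, B, hC, hκ, hEff⟩ := hE c hc1
  refine ⟨C, hC, fun ω hω k => ⟨fun hM a ha => ?_, fun hW p hp => ?_⟩⟩
  · -- the linear forms
    let S : Set ℂ := {w | L.X (1 / 2 + w) = 0 ∧ (ω (1 / 2 + w) < 0 ∨ (0 < ω (1 / 2 + w) ∧ w.re ≠ 0))}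
    obtain ⟨q, hq⟩ := cover ((fun w : ℂ => ((|w.re|, w.im) : ℝ × ℝ)) '' S) k (by
      intro p hp
      choose w hw hwp using hp
      obtain ⟨i, j, hij, h⟩ := hM w hw
      refine ⟨i, j, hij, ?_⟩
      rw [← hwp i, ← hwp j]
      rcases h with h | h
      · simp only [h]
      · simp only [h]
        simp)
    choose l hl using fun i : Fin k => ext_TT a (⟨(q i).1, (q i).2⟩ : ℂ)
    refine ⟨l, fun ν f hf hlf => ?_⟩
    have hT : ∀ i : Fin k, Y23.TT f (⟨(q i).1, (q i).2⟩ : ℂ) = 0 := by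
      intro i
      rw [← hl i f hf.1]
      exact hlf i
    have hbad : ∀ w ∈ S, Y23.G.GG f f w = 0 := by
      intro w hw
      obtain ⟨i, hi⟩ := hq (Set.mem_image_of_mem (fun w : ℂ => ((|w.re|, w.im) : ℝ × ℝ)) hw)
      have h1 := hT i
      rw [hi] at h1
      unfold Y23.G.GG
      rcases le_total 0 w.re with h2 | h2
      · have h3 : (⟨(|w.re|, w.im).1, (|w.re|, w.im).2⟩ : ℂ) = w := by
          apply Complex.ext
          · exact abs_of_nonneg h2
          · rfl
        simp only at h1 h3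
        rw [h3] at h1
        rw [h1, zero_mul]
      · have h3 : (⟨(|w.re|, w.im).1, (|w.re|, w.im).2⟩ : ℂ) = -conj w := by
          apply Complex.ext
          · simpa using h2
          · simp
        simp only at h1 h3
        rw [h3] at h1
        rw [h1, map_zero, mul_zero]
    unfold QS
    refine tsum_nonneg fun ρ => ?_
    have hρ : L.X (1 / 2 + ((ρ : ℂ) - 1 / 2)) = 0 := by
      have : (1 / 2 + ((ρ : ℂ) - 1 / 2)) = (ρ : ℂ) := by ring
      rw [this]
      exact ρ.2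
    have hρ' : ω (1 / 2 + ((ρ : ℂ) - 1 / 2)) = ω (ρ : ℂ) := by
      congr 1
      ring
    rcases lt_trichotomy (ω (ρ : ℂ)) 0 with h | h | h
    · rw [hbad _ ⟨hρ, Or.inl (by rw [hρ']; exact h)⟩]
      simp
    · rw [h]
      simp
    · by_cases hre : ((ρ : ℂ) - 1 / 2).re = 0
      · have h1 : -conj ((ρ : ℂ) - 1 / 2) = (ρ : ℂ) - 1 / 2 := by
          apply Complex.ext
          · rw [Complex.neg_re, Complex.conj_re, hre, neg_zero]
          · rw [Complex.neg_im, Complex.conj_im, neg_neg]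
        have h2 : 0 ≤ (Y23.G.GG f f ((ρ : ℂ) - 1 / 2)).re := by
          unfold Y23.G.GG
          rw [h1, Complex.mul_conj]
          rw [Complex.ofReal_re]
          exact Complex.normSq_nonneg _
        have h3 : (0 : ℝ) ≤ (ω (ρ : ℂ) : ℝ) := by exact_mod_cast h.le
        exact mul_nonneg h3 h2
      · rw [hbad _ ⟨hρ, Or.inr ⟨by rw [hρ']; exact h, hre⟩⟩]
        simp
  · -- the bad points
    by_contra hcon
    push Not at hcon
    choose d hd hbad using fun j : Fin (k + 1) => bad_of (L := L) ω (p j) (hp j)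
    obtain ⟨δ1, hδ1, hδ1'⟩ := exists_low d hd
    obtain ⟨δ2, hδ2, hδ2'⟩ := exists_low (ι := {x : Fin (k + 1) × Fin (k + 1) // x.1 ≠ x.2})
      (fun x => ‖p x.1.1 - p x.1.2‖) (fun x => by
        rw [norm_pos_iff, sub_ne_zero]
        exact (hcon x.1.1 x.1.2 x.2).1)
    obtain ⟨δ3, hδ3, hδ3'⟩ := exists_low (ι := {x : Fin (k + 1) × Fin (k + 1) // x.1 ≠ x.2})
      (fun x => ‖p x.1.1 + conj (p x.1.2)‖) (fun x => by
        rw [norm_pos_iff]
        intro h
        exact (hcon x.1.1 x.1.2 x.2).2 (eq_neg_of_add_eq_zero_left h))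
    set δ0 : ℝ := min δ1 (min (δ2 / 3) (δ3 / 3)) with hδ0
    have hδ0p : 0 < δ0 := lt_min hδ1 (lt_min (by positivity) (by positivity))
    set B' : ℝ := max (max B (-Real.log δ0 / κ)) 1 with hB'
    have hB'1 : 1 ≤ B' := le_max_right _ _
    have hB'B : B ≤ B' := (le_max_left _ _).trans (le_max_left _ _)
    have hB'δ : Real.exp (-(κ * B')) ≤ δ0 := by
      rw [← Real.le_log_iff_exp_le hδ0p]
      have h1 : -Real.log δ0 / κ ≤ B' := (le_max_right _ _).trans (le_max_left _ _)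
      rw [div_le_iff₀ hκ] at h1
      linarith
    have ht : Tendsto (fun a : ℝ => Real.exp (2 * a / L.m)) atTop atTop := by
      refine Real.tendsto_exp_atTop.comp ?_
      have : Tendsto (fun a : ℝ => 2 / (L.m : ℝ) * a) atTop atTop :=
        tendsto_id.const_mul_atTop (by positivity)
      refine this.congr fun a => ?_
      ring
    have ht2 : Tendsto (fun a : ℝ => Real.exp (κ * (B' * a))) atTop atTop := by
      refine Real.tendsto_exp_atTop.comp ?_
      have : Tendsto (fun a : ℝ => κ * B' * a) atTop atTop :=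
        tendsto_id.const_mul_atTop (by positivity)
      refine this.congr fun a => ?_
      ring
    have hev : ∀ᶠ a : ℝ in atTop, A ≤ a ∧ 1 ≤ a ∧ B' * (L.m : ℝ) ^ 2 / 2 ≤ a ∧
        (∀ j, |(p j).im| ≤ c * Real.exp (2 * a / L.m)) ∧ (k : ℝ) ≤ Real.exp (κ * (B' * a)) := by
      refine (eventually_ge_atTop A).and ((eventually_ge_atTop 1).and ((eventually_ge_atTop _).and
        ((eventually_all.2 fun j => ?_).and (ht2.eventually_ge_atTop _))))
      exact (ht.const_mul_atTop hc0).eventually_ge_atTop _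
    obtain ⟨A', hA'⟩ := hev.exists_forall_of_atTop
    obtain ⟨a, ν, l, haA, hν, hf⟩ := hW B' A'
    obtain ⟨h1, h2, h3, h4, h5⟩ := hA' a haA
    have ha0 : 0 < a := by linarith
    have hY : B' * a ≤ Real.exp (2 * a / L.m) := by
      have h6 := Real.quadratic_le_exp_of_nonneg (x := 2 * a / L.m) (by positivity)
      have h7 : B' * a ≤ (2 * a / L.m) ^ 2 / 2 := by
        rw [div_pow, div_div, le_div_iff₀ (by positivity)]
        have h8 : B' * (L.m : ℝ) ^ 2 ≤ 2 * a := by linarith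
        calc B' * a * ((L.m : ℝ) ^ 2 * 2) = (B' * (L.m : ℝ) ^ 2) * (2 * a) := by ring
          _ ≤ (2 * a) * (2 * a) := mul_le_mul_of_nonneg_right h8 (by positivity)
          _ = (2 * a) ^ 2 := by ring
      have h8 : 0 ≤ 2 * a / (L.m : ℝ) := by positivity
      linarith
    have hκa : κ * (B' * a) / a = κ * B' := by
      field_simp
    obtain ⟨i, j, hij, h⟩ := hEff a (B' * a) ν ω k l h1 (mul_le_mul_of_nonneg_right hB'B ha0.le) hY hν h5 hω hf p
      (fun j => ⟨hbad j _ (by rw [hκa]; exact (hB'δ.trans (min_le_left _ _)).trans (hδ1' j)), h4 j⟩)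
    rw [hκa] at h
    have h6 : δ0 ≤ δ2 / 3 := (min_le_right _ _).trans (min_le_left _ _)
    have h7 : δ0 ≤ δ3 / 3 := (min_le_right _ _).trans (min_le_right _ _)
    rcases h with h | h
    · have h8 := hδ2' ⟨(i, j), hij⟩
      simp only at h8
      linarith
    · have h8 := hδ3' ⟨(i, j), hij⟩
      simp only at h8
      linarith

end Pool.Agent.Q211.IX
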